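import Pool.Agent.Run7.h735.DV.Main

/-!
# Distributive varieties of Lie algebras which need identities of high degree

Over every field `F` of characteristic zero there is, for every `d` (for instance `d = 6`), a variety
of Lie algebras whose lattice of subvarieties is distributive and which is not defined by identities
of degree at most `d`. So the answer to the question is yes.

The variety is generated by the Lie algebra `M = F a ⊕ F[t]/(t^N)`, `N = d + 1`, where `F[t]/(t^N)`
is an abelian ideal and `[a, v] = t v`. Its subvarieties form a chain, the variety consists of
metabelian nilpotent algebras.

Proof. Let `M_c = F a ⊕ F[t]/(t^c)` and let `W` be a variety contained in the one generated by `M_N`.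
(1) If `M_c`, `c ≥ 1`, is not in `W` then all algebras in `W` have class less than `c`: some identity
`f` of `W` has a nonzero value in `M_c`; substituting the elements `α_i y + s p_i(ad y) z` and taking
the linear term in `s` one gets the identity `(ad y)^k z = 0` for some `k < c`, and a metabelian Lie
algebra over a field of characteristic zero which satisfies it has class at most `k`. (2) If `M_c` is
in `W` then all algebras of class at most `c` of the variety generated by `M_N` are in `W`: write an
identity `f` of `W` as a sum of an element `g` of degree at most `c` and a combination of monomials of
degree greater than `c`; `g` is an identity of `M_c`, so of `F a ⊕ F[t]`, as the value of `g` is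
linear in the `t`-components with coefficients of degree less than `c` in `t`. By (1) and (2) the
subvarieties form a chain. If the variety were defined by identities of degree at most `d` then, by
the last argument, it would contain `F a ⊕ F[t]`, which is not nilpotent.
-/

set_option autoImplicit false

universe u

open Pool.Agent.Run7.h735.DV

namespace Pool.Agent.Results.MP_b4a71d_al.DistributiveHighDegree

/-- For every field of characteristic zero and every `d` there is a variety of Lie algebras whose
lattice of subvarieties is distributive (it is even a chain) and which is not defined by identities
of degree at most `d`. -/
theorem result (F : Type u) [Field F] [CharZero F] (d : ℕ) :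
    ∃ V : Set (Alg F), IsVariety V ∧ Distributive V ∧ Chain V ∧ ¬DefinedInDegree d V :=
  ⟨VC F (d + 1), ⟨_, rfl⟩, distributive_of_chain (chain (Nat.le_add_left 1 d)),
    chain (Nat.le_add_left 1 d), not_defined (Nat.le_add_left 1 d) (Nat.le_succ d)⟩

end Pool.Agent.Results.MP_b4a71d_al.DistributiveHighDegree
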